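import Pool.Agent.TH224.SC.Seq

/-!
Small fibres of polynomials, and a polynomial with a lemniscate of two pieces, one of them tiny.
-/

set_option autoImplicit false

open Filter Topology Metric Set Polynomial

namespace Pool.Agent.K3h72.SH

open Pool.Agent.TH224.SC

/-- the part of a connected set over a small disc is small -/
theorem small_fibre {G : ℂ[X]} (hG : 0 < G.natDegree) (b : ℂ) {ε : ℝ} (hε : 0 < ε) :
    ∃ η : ℝ, 0 < η ∧ ∀ P : Set ℂ, IsPreconnected P → (∀ z ∈ P, ‖G.eval z - b‖ ≤ η) →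
      ∀ x ∈ P, ∀ y ∈ P, ‖x - y‖ ≤ ε := by
  set p : ℂ[X] := G - C b with hp
  have hpe : ∀ z, p.eval z = G.eval z - b := fun z => by rw [hp, eval_sub, eval_C]
  have hpd : 0 < p.natDegree := by rw [hp, natDegree_sub_C]; exact hG
  have hpne : p ≠ 0 := by
    rintro h
    rw [h] at hpd
    simp at hpd
  obtain ⟨η, h1, hη⟩ := ((usc hpd 0 (half_pos hε)).and self_mem_nhdsWithin).exists
  have hη : 0 < η := hη
  refine ⟨η, hη, fun P hP hPη x hx y hy => ?_⟩
  obtain ⟨T, hT, hlarge⟩ := exists_large hpd η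
  have hxη : ‖p.eval x‖ ≤ η := by rw [hpe]; exact hPη x hx
  obtain ⟨-, honto⟩ := Vc_onto (G := fun z => p.eval z) p.continuous (open_poly hpd)
    (isOpen_ball (x := (0 : ℂ)) (ε := T)) isBounded_ball (s := η) (a := x) (by
      intro z hz
      have h5 : z ∈ sphere (0 : ℂ) T := frontier_ball_subset_sphere hz
      rw [mem_sphere_zero_iff_norm] at h5
      exact hlarge z h5.ge) (by
      rw [mem_ball_zero_iff]
      by_contra h
      push Not at h
      linarith [hlarge x h]) hxη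
  obtain ⟨a, ha, ha0⟩ := honto 0 (by rw [norm_zero]; exact hη.le)
  have ha0 : p.eval a = 0 := ha0
  have hfin : {z : ℂ | ‖p.eval z‖ ≤ 0}.Finite := by
    have : {z : ℂ | ‖p.eval z‖ ≤ 0} ⊆ (p.roots.toFinset : Set ℂ) := by
      intro z hz
      rw [Finset.mem_coe, Multiset.mem_toFinset, mem_roots hpne]
      exact norm_le_zero_iff.1 hz
    exact p.roots.toFinset.finite_toSet.subset this
  have hsub : (Vc (fun z => p.eval z) 0 a).Subsingleton :=
    hfin.countable.isTotallyDisconnected _ (connectedComponentIn_subset _ _) (Vc_pre _ _ _)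
  have haV : a ∈ Vc (fun z => p.eval z) 0 a := mem_Vc (by simp [ha0])
  have hPV : P ⊆ Vc (fun z => p.eval z) (0 + η) a := by
    rw [zero_add, ← Vc_eq ha]
    exact sub_Vc hP hx fun z hz => by
      show ‖p.eval z‖ ≤ η
      rw [hpe]; exact hPη z hz
  have key : ∀ z ∈ P, ‖z - a‖ ≤ ε / 2 := by
    intro z hz
    obtain ⟨y', hy', h2⟩ := h1 a (by simp [ha0]) z (hPV hz)
    rw [hsub hy' haV] at h2
    exact h2.le
  have h2 := key x hx
  have h3 := key y hy
  have h4 : x - y = (x - a) - (y - a) := by ring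
  rw [h4]
  linarith [norm_sub_le (x - a) (y - a)]

/-- A polynomial with a lemniscate of two pieces, the second one in a small disc. -/
theorem exists_pol {ρ s η : ℝ} (hρ : 0 < ρ) (hρs : ρ < s) (hη : 0 < η) :
    ∃ (L : ℂ[X]) (e : Bool → ℂ), 0 < L.natDegree ∧
      (∀ z : ℂ, ‖z‖ ≤ ρ → ‖L.eval z‖ < 1 / 4) ∧
      (∀ z : ℂ, s ≤ ‖z‖ → 4 < ‖L.eval z‖ ∧ 4 * ((‖z‖ - s) / (2 * s)) ≤ ‖L.eval z‖) ∧
      (∀ c : ℝ, 0 ≤ c → c ≤ 4 → ∀ z : ℂ, ‖L.eval z‖ ≤ c →
        ∃ b, z ∈ Vc (fun z => L.eval z) c (e b)) ∧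
      Disjoint (Vc (fun z => L.eval z) 4 (e false)) (Vc (fun z => L.eval z) 4 (e true)) ∧
      (∀ b, L.eval (e b) = 0) ∧
      ∀ z ∈ Vc (fun z => L.eval z) 4 (e true), ‖z - (((ρ + s) / 2 : ℝ) : ℂ)‖ ≤ η := by
  have hs : 0 < s := by linarith
  set b : ℝ := (ρ + s) / 2 with hb
  have hb0 : 0 < b := by rw [hb]; linarith
  set ρ₂ : ℝ := (3 * ρ + s) / 4 with hρ₂
  set t : ℝ := (7 * ρ + s) / 8 with ht
  have ht0 : 0 < t := by rw [ht]; linarith
  have hρ₂0 : 0 < ρ₂ := by rw [hρ₂]; linarith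
  have hρt : ρ < t := by rw [ht]; linarith
  have htρ₂ : t < ρ₂ := by rw [ht, hρ₂]; linarith
  set η' : ℝ := min η ((s - ρ) / 8) with hη'
  have hη'0 : 0 < η' := lt_min hη (by linarith)
  have hη'1 : η' ≤ (s - ρ) / 8 := min_le_right _ _
  have hbn : ‖((b : ℝ) : ℂ)‖ = b := by
    rw [Complex.norm_real, Real.norm_eq_abs, abs_of_pos hb0]
  -- choice of `a`
  have e1 : ∀ᶠ a : ℕ in atTop, (ρ / t) ^ a * (ρ + b) < 1 / 4 := by
    have h1 : Tendsto (fun a : ℕ => (ρ / t) ^ a * (ρ + b)) atTop (𝓝 (0 * (ρ + b))) :=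
      (tendsto_pow_atTop_nhds_zero_of_lt_one (by positivity) (by
        rw [div_lt_one ht0]; exact hρt)).mul_const _
    rw [zero_mul] at h1
    exact h1.eventually (gt_mem_nhds (by norm_num))
  have e2 : ∀ᶠ a : ℕ in atTop, 4 / η' < (ρ₂ / t) ^ a :=
    (tendsto_pow_atTop_atTop_of_one_lt (by rw [one_lt_div ht0]; exact htρ₂)).eventually_gt_atTop _
  obtain ⟨a, ha1, ha2⟩ := (e1.and e2).exists
  rw [div_lt_iff₀ hη'0] at ha2
  set L : ℂ[X] := (C ((t : ℂ)⁻¹) * X) ^ a * (X - C (b : ℂ)) with hL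
  have hLe : ∀ z, L.eval z = ((t : ℂ)⁻¹ * z) ^ a * (z - b) := by
    intro z
    rw [hL]
    simp
  have hLn : ∀ z, ‖L.eval z‖ = (‖z‖ / t) ^ a * ‖z - b‖ := by
    intro z
    rw [hLe, norm_mul, norm_pow, norm_mul, norm_inv, Complex.norm_real, Real.norm_eq_abs,
      abs_of_pos ht0]
    congr 2
    rw [div_eq_inv_mul]
  have htne : (t : ℂ)⁻¹ ≠ 0 := inv_ne_zero (by exact_mod_cast ht0.ne')
  have hCX : (C ((t : ℂ)⁻¹) * X : ℂ[X]) ≠ 0 := mul_ne_zero (C_ne_zero.2 htne) X_ne_zero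
  have hLdeg : 0 < L.natDegree := by
    rw [hL, natDegree_mul (pow_ne_zero _ hCX) (X_sub_C_ne_zero _), natDegree_X_sub_C]
    omega
  have hbig : ∀ z : ℂ, ρ₂ ≤ ‖z‖ → η' ≤ ‖z - b‖ → 4 < ‖L.eval z‖ := by
    intro z h1 h2
    rw [hLn]
    calc 4 < (ρ₂ / t) ^ a * η' := ha2
      _ ≤ (‖z‖ / t) ^ a * ‖z - b‖ := by gcongr
  have hfar : ∀ z : ℂ, s ≤ ‖z‖ → 4 < ‖L.eval z‖ ∧ 4 * ((‖z‖ - s) / (2 * s)) ≤ ‖L.eval z‖ := by
    intro z hz
    have h1 : ‖z‖ - b ≤ ‖z - b‖ := by
      have := norm_sub_norm_le z (b : ℂ)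
      rwa [hbn] at this
    constructor
    · apply hbig z
      · rw [hρ₂]; linarith
      · rw [hb] at h1; linarith
    · rw [hLn]
      have h2 : 2 / s ≤ (‖z‖ / t) ^ a := by
        have h3 : (ρ₂ / t) ^ a ≤ (‖z‖ / t) ^ a := by
          gcongr
          rw [hρ₂]; linarith
        refine le_trans ?_ h3
        rw [div_le_iff₀ hs]
        have h4 : η' ≤ s := by linarith
        have h5 : 0 ≤ (ρ₂ / t) ^ a := by positivity
        nlinarith
      have h6 : 0 ≤ ‖z‖ - s := by linarith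
      have h7 : ‖z‖ - s ≤ ‖z - b‖ := by rw [hb] at h1; linarith
      calc 4 * ((‖z‖ - s) / (2 * s)) = 2 / s * (‖z‖ - s) := by field_simp; ring
        _ ≤ (‖z‖ / t) ^ a * ‖z - b‖ := by
          apply mul_le_mul h2 h7 h6 (by positivity)
  have hin4 : ∀ z : ℂ, ‖L.eval z‖ ≤ 4 → z ∈ ball (0 : ℂ) ρ₂ ∨ z ∈ ball (b : ℂ) η' := by
    intro z hz
    by_contra h
    push Not at h
    obtain ⟨h1, h2⟩ := h
    rw [mem_ball_zero_iff, not_lt] at h1
    rw [mem_ball, dist_eq_norm, not_lt] at h2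
    linarith [hbig z h1 h2]
  have hane : a ≠ 0 := by
    rintro rfl
    rw [pow_zero, one_mul] at ha2
    rw [pow_zero, one_mul] at ha1
    have : η' ≤ s := by linarith
    rw [hb] at ha1
    linarith
  have hz0 : ∀ z : ℂ, L.eval z = 0 → z = 0 ∨ z = b := by
    intro z hz
    rw [hLe, mul_eq_zero] at hz
    rcases hz with hz | hz
    · left
      have := eq_zero_of_pow_eq_zero hz
      exact (mul_eq_zero.1 this).resolve_left htne
    · right
      exact sub_eq_zero.1 hz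
  set e : Bool → ℂ := fun b' => if b' then (b : ℂ) else 0 with he
  have hef : e false = 0 := by simp [he]
  have het : e true = b := by simp [he]
  have hLe0 : ∀ b', L.eval (e b') = 0 := by
    intro b'
    cases b'
    · rw [hef, hLe, mul_zero, zero_pow hane, zero_mul]
    · rw [het, hLe, sub_self, mul_zero]
  have hdisj : Disjoint (ball (0 : ℂ) ρ₂) (ball (b : ℂ) η') := by
    apply ball_disjoint_ball
    rw [dist_zero_left, hbn, hρ₂, hb]
    linarith
  have hVt : Vc (fun z => L.eval z) 4 (e true) ⊆ ball (b : ℂ) η' :=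
    (Vc_pre _ _ _).subset_right_of_subset_union isOpen_ball isOpen_ball hdisj
      (fun z hz => hin4 z (Vc_sub hz))
      ⟨e true, mem_Vc (by
        show ‖L.eval (e true)‖ ≤ 4
        rw [hLe0]; simp), by rw [het]; exact mem_ball_self hη'0⟩
  have hVf : Vc (fun z => L.eval z) 4 (e false) ⊆ ball (0 : ℂ) ρ₂ :=
    (Vc_pre _ _ _).subset_left_of_subset_union isOpen_ball isOpen_ball hdisj
      (fun z hz => hin4 z (Vc_sub hz))
      ⟨e false, mem_Vc (by
        show ‖L.eval (e false)‖ ≤ 4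
        rw [hLe0]; simp), by rw [hef]; exact mem_ball_self hρ₂0⟩
  refine ⟨L, e, hLdeg, ?_, hfar, ?_, hdisj.mono hVf hVt, hLe0, ?_⟩
  · intro z hz
    rw [hLn]
    refine lt_of_le_of_lt ?_ ha1
    have h1 : ‖z - b‖ ≤ ρ + b := by
      have := norm_sub_le z (b : ℂ)
      rw [hbn] at this
      linarith
    gcongr
  · intro c hc0 hc4 z hz
    have hzs : ‖z‖ < s := by
      by_contra h
      push Not at h
      have := (hfar z h).1
      linarith
    obtain ⟨-, honto⟩ := Vc_onto (G := fun z => L.eval z) L.continuous (open_poly hLdeg)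
      (isOpen_ball (x := (0 : ℂ)) (ε := s)) isBounded_ball (s := c) (a := z) (by
        intro w hw
        have h5 : w ∈ sphere (0 : ℂ) s := frontier_ball_subset_sphere hw
        rw [mem_sphere_zero_iff_norm] at h5
        have := (hfar w h5.ge).1
        linarith) (by rwa [mem_ball_zero_iff]) hz
    obtain ⟨w, hw, hw0⟩ := honto 0 (by rw [norm_zero]; exact hc0)
    rcases hz0 w hw0 with h | h
    · refine ⟨false, ?_⟩
      rw [hef, ← h, ← Vc_eq hw]
      exact mem_Vc hz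
    · refine ⟨true, ?_⟩
      rw [het, ← h, ← Vc_eq hw]
      exact mem_Vc hz
  · intro z hz
    have h1 := hVt hz
    rw [mem_ball, dist_eq_norm] at h1
    exact h1.le.trans (min_le_left _ _)

end Pool.Agent.K3h72.SH
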