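import Pool.Agent.K3h72.SH.Inner

/-!
Uncountably many complementary components of the wandering domain are single points.
-/

set_option autoImplicit false

open Filter Topology Metric Set Polynomial

namespace Pool.Agent.K3h72.SH

open Pool.Agent.H384R2.Fatou Pool.Agent.W723.MC

namespace Sys

variable {f : ℂ → ℂ} {r s R' : ℕ → ℝ}

/-- the orbits in the component of a point inside -/
theorem comp_in (h : Sys f r s R') {x : ℂ} (hx : x ∈ (U f s 0)ᶜ) (hxs : ‖x‖ ≤ s 0) :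
    ∀ z ∈ connectedComponentIn (U f s 0)ᶜ x, ∀ i, ‖f^[i] z‖ ≤ s i := by
  intro z hz i
  have hzs : ‖z‖ ≤ s 0 := by
    by_contra hcon
    push Not at hcon
    have h1 := h.s_lt_r 0
    obtain ⟨t, ht1, ht2⟩ := exists_between (lt_min hcon h1)
    obtain ⟨w, hw, hwt⟩ := cross isPreconnected_connectedComponentIn (mem_connectedComponentIn hx)
      hz (t := t) (by linarith) (ht2.le.trans (min_le_left _ _))
    have h2 : w ∈ B r s 0 := ⟨by rw [hwt]; exact ht1, by
      rw [hwt]; exact lt_of_lt_of_le ht2 (min_le_right _ _)⟩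
    exact connectedComponentIn_subset _ _ hw (h.B_U 0 h2)
  have h3 := h.not_U (n := 0) (connectedComponentIn_subset _ _ hz)
    (hzs.trans_lt (h.s_lt_r 0)) i
  rwa [zero_add] at h3

/-- orbits bounded by `s` are outside of the domain -/
theorem not_mem_of_le (h : Sys f r s R') {x : ℂ} (hx : ∀ i, ‖f^[i] x‖ ≤ s i) :
    x ∈ (U f s 0)ᶜ := by
  intro hxU
  obtain ⟨k, hk, -⟩ := (h.growth hxU 1).exists
  rw [zero_add, pow_one] at hk
  linarith [hx k]

/-- **single points** -/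
theorem single (h : Sys f r s R') {Λ : ℕ → Bool → Set ℂ} (hΛc : ∀ m b, IsClosed (Λ m b))
    (hΛd : ∀ m, Disjoint (Λ m false) (Λ m true))
    (hΛ : ∀ m z, ‖z‖ ≤ s m → ‖f z‖ ≤ s (m + 1) → ∃ b, z ∈ Λ m b)
    (hΛs : ∀ m, ∀ P : Set ℂ, IsPreconnected P → (∀ z ∈ P, ∀ i < m, ‖f^[i] z‖ < r m / 2) →
      (∀ z ∈ P, f^[m] z ∈ Λ m true) → ∀ x ∈ P, ∀ y ∈ P, ‖x - y‖ ≤ (1 / 2) ^ m)
    {x : ℂ} (hx : ∀ i, ‖f^[i] x‖ ≤ s i) (hinf : ∀ n, ∃ m, n ≤ m ∧ f^[m] x ∈ Λ m true) :
    connectedComponentIn (U f s 0)ᶜ x = {x} := by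
  have hxU := h.not_mem_of_le hx
  set C := connectedComponentIn (U f s 0)ᶜ x with hC
  have hCp : IsPreconnected C := isPreconnected_connectedComponentIn
  have hxC : x ∈ C := mem_connectedComponentIn hxU
  have hCs : ∀ z ∈ C, ∀ i, ‖f^[i] z‖ ≤ s i := h.comp_in hxU (hx 0)
  apply Set.Subset.antisymm _ (singleton_subset_iff.2 hxC)
  intro y hy
  rw [mem_singleton_iff]
  by_contra hne
  have hpos : 0 < ‖y - x‖ := norm_pos_iff.2 (sub_ne_zero.2 hne)
  obtain ⟨n, hn⟩ := exists_pow_lt_of_lt_one hpos (show (1 / 2 : ℝ) < 1 by norm_num)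
  obtain ⟨m, hnm, hm⟩ := hinf n
  have h1 : ∀ z ∈ C, ∀ i < m, ‖f^[i] z‖ < r m / 2 := by
    intro z hz i hi
    have h2 := hCs z hz i
    have h3 := h.s_lt_R i
    have h4 := h.R_lt i
    have h5 : r (i + 1) ≤ r m := h.r_mono (by omega)
    linarith
  have hI : IsPreconnected (f^[m] '' C) := hCp.image _ (h.hf.continuous.iterate m).continuousOn
  have hIcov : f^[m] '' C ⊆ Λ m false ∪ Λ m true := by
    rintro _ ⟨z, hz, rfl⟩
    have h3 := hCs z hz m
    have h4 := hCs z hz (m + 1)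
    rw [Function.iterate_succ_apply'] at h4
    obtain ⟨b, hb⟩ := hΛ m _ h3 h4
    cases b
    · exact Or.inl hb
    · exact Or.inr hb
  have hIt : f^[m] '' C ⊆ Λ m true := by
    intro w hw
    rcases hIcov hw with h2 | h2
    · exfalso
      obtain ⟨v, -, hv1, hv2⟩ := isPreconnected_closed_iff.1 hI _ _ (hΛc m false) (hΛc m true)
        hIcov ⟨w, hw, h2⟩ ⟨f^[m] x, ⟨x, hxC, rfl⟩, hm⟩
      exact Set.disjoint_left.1 (hΛd m) hv1 hv2
    · exact h2
  have h2 := hΛs m C hCp h1 (fun z hz => hIt ⟨z, hz, rfl⟩) y hy x hxC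
  have h3 : ((1 : ℝ) / 2) ^ m ≤ (1 / 2) ^ n :=
    pow_le_pow_of_le_one (by norm_num) (by norm_num) hnm
  linarith

/-- points with a prescribed itinerary -/
theorem itinerary (h : Sys f r s R') {Λ : ℕ → Bool → Set ℂ} (hΛc : ∀ m b, IsClosed (Λ m b))
    (hΛo : ∀ m b y, ‖y‖ ≤ s (m + 1) → ∃ w ∈ Λ m b, ‖w‖ ≤ s m ∧ f w = y) (β : ℕ → Bool) :
    ∃ x : ℂ, ∀ i, ‖f^[i] x‖ ≤ s i ∧ f^[i] x ∈ Λ i (β i) := by
  have key : ∀ j n : ℕ, ∀ y : ℂ, ‖y‖ ≤ s (n + j + 1) → ∃ x : ℂ,
      (∀ i ≤ j, ‖f^[i] x‖ ≤ s (n + i) ∧ f^[i] x ∈ Λ (n + i) (β (n + i))) ∧ f^[j + 1] x = y := by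
    intro j
    induction j with
    | zero =>
      intro n y hy
      obtain ⟨w, hw, hws, hwy⟩ := hΛo n (β n) y hy
      refine ⟨w, fun i hi => ?_, hwy⟩
      obtain rfl : i = 0 := by omega
      exact ⟨hws, hw⟩
    | succ j ih =>
      intro n y hy
      obtain ⟨x', hx', hxy⟩ := ih (n + 1) y (by
        have e : n + 1 + j + 1 = n + (j + 1) + 1 := by omega
        rwa [e])
      have h0 := (hx' 0 (Nat.zero_le _)).1
      obtain ⟨w, hw, hws, hwx⟩ := hΛo n (β n) x' h0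
      refine ⟨w, fun i hi => ?_, ?_⟩
      · rcases i with _ | i
        · exact ⟨hws, hw⟩
        · rw [Function.iterate_succ_apply, hwx]
          have h1 := hx' i (by omega)
          have e : n + 1 + i = n + (i + 1) := by omega
          rwa [e] at h1
      · rw [Function.iterate_succ_apply, hwx]
        exact hxy
  set K : ℕ → Set ℂ := fun j => {x | ∀ i ≤ j, ‖f^[i] x‖ ≤ s i ∧ f^[i] x ∈ Λ i (β i)} with hK
  have hKcl : ∀ j, IsClosed (K j) := by
    intro j
    have e : K j = ⋂ i, ⋂ (_ : i ≤ j), ({x | ‖f^[i] x‖ ≤ s i} ∩ f^[i] ⁻¹' Λ i (β i)) := by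
      ext x
      simp [hK]
    rw [e]
    exact isClosed_iInter fun i => isClosed_iInter fun _ =>
      (isClosed_le (h.hf.continuous.iterate i).norm continuous_const).inter
        ((hΛc i (β i)).preimage (h.hf.continuous.iterate i))
  have hK0 : IsCompact (K 0) := by
    apply IsCompact.of_isClosed_subset (isCompact_closedBall (0 : ℂ) (s 0)) (hKcl 0)
    intro x hx
    rw [mem_closedBall_zero_iff]
    exact (hx 0 le_rfl).1
  have hKne : ∀ j, (K j).Nonempty := by
    intro j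
    obtain ⟨x, hx, -⟩ := key j 0 0 (by rw [norm_zero]; exact (h.s_pos _).le)
    refine ⟨x, fun i hi => ?_⟩
    have := hx i hi
    rwa [zero_add] at this
  obtain ⟨x, hx⟩ := IsCompact.nonempty_iInter_of_sequence_nonempty_isCompact_isClosed K
    (fun j x hx i hi => hx i (hi.trans (Nat.le_succ j))) hKne hK0 hKcl
  exact ⟨x, fun i => mem_iInter.1 hx i i le_rfl⟩

/-- **uncountably many single points** -/
theorem uncountable_singles (h : Sys f r s R') :
    ¬ {x : ℂ | x ∈ (U f s 0)ᶜ ∧ connectedComponentIn (U f s 0)ᶜ x = {x}}.Countable := by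
  choose Λ hΛc hΛd hΛ hΛo hΛs using fun m => (h.st m).lam
  choose x hx using h.itinerary hΛc hΛo
  -- insert infinitely many marks
  set γ : (ℕ → Bool) → ℕ → Bool := fun β i => if i % 2 = 0 then true else β (i / 2) with hγ
  have hsing : ∀ β, x (γ β) ∈ {x : ℂ | x ∈ (U f s 0)ᶜ ∧
      connectedComponentIn (U f s 0)ᶜ x = {x}} := by
    intro β
    refine ⟨h.not_mem_of_le fun i => (hx (γ β) i).1, ?_⟩
    refine h.single hΛc hΛd hΛ hΛs (fun i => (hx (γ β) i).1) fun n => ⟨2 * n, by omega, ?_⟩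
    have h1 := (hx (γ β) (2 * n)).2
    have h2 : γ β (2 * n) = true := by simp [hγ]
    rwa [h2] at h1
  have hinj : Function.Injective fun β => x (γ β) := by
    intro β β' hββ
    have hββ : x (γ β) = x (γ β') := hββ
    funext n
    have h1 := (hx (γ β) (2 * n + 1)).2
    have h2 := (hx (γ β') (2 * n + 1)).2
    rw [← hββ] at h2
    have e : ∀ β : ℕ → Bool, γ β (2 * n + 1) = β n := by
      intro β
      have e1 : (2 * n + 1) % 2 = 1 := by omega
      have e2 : (2 * n + 1) / 2 = n := by omega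
      simp only [hγ, e1, e2]
      simp
    rw [e] at h1 h2
    have hd := Set.disjoint_left.1 (hΛd (2 * n + 1))
    by_contra hne
    cases hb : β n
    · cases hb' : β' n
      · exact hne (hb.trans hb'.symm)
      · rw [hb] at h1
        rw [hb'] at h2
        exact hd h1 h2
    · cases hb' : β' n
      · rw [hb] at h1
        rw [hb'] at h2
        exact hd h2 h1
      · exact hne (hb.trans hb'.symm)
  intro hcount
  have : Countable {x : ℂ | x ∈ (U f s 0)ᶜ ∧ connectedComponentIn (U f s 0)ᶜ x = {x}} :=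
    hcount.to_subtype
  have h1 : Countable (ℕ → Bool) :=
    Function.Injective.countable (f := fun β => (⟨x (γ β), hsing β⟩ :
      {x : ℂ | x ∈ (U f s 0)ᶜ ∧ connectedComponentIn (U f s 0)ᶜ x = {x}}))
      (fun β β' hh => hinj (Subtype.ext_iff.1 hh))
  obtain ⟨g, hg⟩ := exists_surjective_nat (ℕ → Bool)
  obtain ⟨n, hn⟩ := hg fun n => !(g n n)
  have := congrFun hn n
  simp at this

end Sys

end Pool.Agent.K3h72.SH
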