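import Mathlib
import Pool.Agent.H384R2.Fatou
import Pool.Agent.TH224.SC.Defs
import Pool.Agent.K3h72.SH.Single

/-!
# A multiply connected wandering domain with uncountably many singleton complementary components

Q1 of the problem asks whether a multiply connected wandering domain with infinite inner
connectivity can have a singleton complementary component, and further uncountably many.  The
answer is yes to both.

The function is a limit of polynomials `F_{m+1} = F_m (1 + L_m^{j_m})` with
`L_m = (z / t_m)^{a_m} (z - b_m)`: the set `{|L_m| ≤ 4}` consists of a large piece around `0` and of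
a tiny piece around `b_m`, and `b_m` is chosen so that all the lifts of the tiny piece under the
iterate `f^m` are tiny as well.  A point whose orbit stays in `{|z| ≤ s_m}` and is in the tiny piece
for infinitely many `m` is a singleton component of the complement of the wandering domain, and
there are uncountably many such points.
-/

set_option autoImplicit false

namespace Pool.Agent.K3h72.SH.Main

open Set Pool.Agent.H384R2.Fatou Pool.Agent.TH224.SC Pool.Agent.K3h72.SH

/-- **Q1 has a positive answer.** There are a transcendental entire function `f` and a Fatou
component `U` of `f` which is a bounded, multiply connected wandering domain (with `f^n(U)` a Fatou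
component for every `n`), has infinite inner connectivity, and has uncountably many singleton
complementary components. -/
theorem result : ∃ (f : ℂ → ℂ) (U : Set ℂ),
    TransEntire f ∧
    (∃ p ∈ FatouSet f, U = FatouComponent f p) ∧
    IsWanderingDomain f U ∧
    Bornology.IsBounded U ∧
    (∀ n : ℕ, ∃ p ∈ FatouSet f, f^[n] '' U = FatouComponent f p) ∧
    (∃ x ∈ Uᶜ, Bornology.IsBounded (connectedComponentIn Uᶜ x)) ∧
    InfInner f U ∧
    ¬ {x : ℂ | x ∈ Uᶜ ∧ connectedComponentIn Uᶜ x = {x}}.Countable := by
  obtain ⟨f, r, s, R', h⟩ := Pool.Agent.K3h72.SH.exists_sys
  refine ⟨f, Sys.U f s 0, h.trans, ⟨_, h.pt_F 0, rfl⟩, h.wandering, ?_, ?_, ⟨0, h.mult⟩,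
    h.infInner, h.uncountable_singles⟩
  · apply (Metric.isBounded_ball (x := (0 : ℂ)) (r := s 1 + 1)).subset
    intro z hz
    rw [mem_ball_zero_iff]
    exact h.U_bdd 0 z hz
  · intro n
    exact ⟨_, h.pt_F n, h.U_iter n⟩

end Pool.Agent.K3h72.SH.Main
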