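import Pool.Agent.K3h72.SH.Step

/-!
The limit function.
-/

set_option autoImplicit false

open Filter Topology Metric Set Polynomial

namespace Pool.Agent.K3h72.SH

open Pool.Agent.TH224.SC (limit dep_choice open_entire)

/-- **the entire function** -/
theorem exists_fun : ∃ (f : ℂ → ℂ) (r s R' : ℕ → ℝ), Differentiable ℂ f ∧ IsOpenMap f ∧
    f 0 = 0 ∧ (∀ m, 1 ≤ r m ∧ r m < s m ∧ 20 ≤ s m ∧ s m ^ (m + 2) ≤ R' m ∧
      r (m + 1) = R' m ^ (m + 2)) ∧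
    ∀ m, StageProps m (r m) (s m) (r (m + 1)) (s (m + 1)) (R' m) f := by
  -- the relation
  set Q : ℕ → (ℂ[X] × ℝ × ℝ × ℝ) → (ℂ[X] × ℝ × ℝ × ℝ) → Prop := fun m x y =>
    ∃ τ R' : ℝ, 0 < τ ∧ τ ≤ x.2.2.2 ∧ y.2.2.2 = τ / 4 ∧
      (∀ z : ℂ, ‖z‖ ≤ x.2.1 → ‖y.1.eval z - x.1.eval z‖ ≤ τ / 4 * ‖x.1.eval z‖) ∧
      x.2.2.1 ^ (m + 2) ≤ R' ∧ y.2.1 = R' ^ (m + 2) ∧
      ∀ f : ℂ → ℂ, Continuous f → IsOpenMap f →
        (∀ z : ℂ, ‖z‖ ≤ x.2.1 → ‖f z - x.1.eval z‖ ≤ τ * ‖x.1.eval z‖) →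
        (∀ z : ℂ, ‖z‖ ≤ y.2.1 → ‖f z - y.1.eval z‖ ≤ τ / 4 * ‖y.1.eval z‖) →
        StageProps m x.2.1 x.2.2.1 y.2.1 y.2.2.1 R' f with hQ
  set P : ℕ → (ℂ[X] × ℝ × ℝ × ℝ) → Prop := fun m x => Good m x.1 x.2.1 x.2.2.1 x.2.2.2 with hP
  have hinit : P 0 (X, 1, 20, 1 / 8) := by
    refine ⟨by simp, by simp, ?_, le_rfl, by norm_num, le_rfl, by norm_num, le_rfl⟩
    intro z hz
    rw [eval_X] at hz
    rw [hz]
    simp
  have hstep : ∀ m x, P m x → ∃ y, P (m + 1) y ∧ Q m x y := by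
    rintro m ⟨F, r, s, σ⟩ h
    obtain ⟨τ, R', r', s', F', h1, h2, h3, h4, h5, h6, h7⟩ := step m h
    exact ⟨(F', r', s', τ / 4), h4, τ, R', h1, h2, rfl, h3, h5, h6, h7⟩
  obtain ⟨u, hu0, huP, huQ⟩ := dep_choice P Q hinit hstep
  choose τ R' h1 h2 h3 h4 h5 h6 h7 using huQ
  set F : ℕ → ℂ[X] := fun m => (u m).1 with hF
  set r : ℕ → ℝ := fun m => (u m).2.1 with hr
  set s : ℕ → ℝ := fun m => (u m).2.2.1 with hs
  have hG : ∀ m, Good m (F m) (r m) (s m) (u m).2.2.2 := huP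
  have hs20 : ∀ m, 20 ≤ s m := fun m => (hG m).hs
  have hrs : ∀ m, r m < s m := fun m => (hG m).hrs
  have hr1 : ∀ m, 1 ≤ r m := fun m => (hG m).hr
  have hR : ∀ m, s m ^ (m + 2) ≤ R' m := h5
  have hrR : ∀ m, r (m + 1) = R' m ^ (m + 2) := h6
  have hsr : ∀ m, s m ≤ r (m + 1) := by
    intro m
    have h8 : s m ≤ s m ^ (m + 2) := le_self_pow₀ (by linarith [hs20 m]) (by omega)
    have h9 : 1 ≤ R' m := by linarith [hs20 m, hR m]
    have h10 : R' m ≤ R' m ^ (m + 2) := le_self_pow₀ h9 (by omega)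
    rw [hrR]
    linarith [hR m]
  have hmono : Monotone r := monotone_nat_of_le_succ fun m => ((hrs m).le.trans (hsr m))
  have hgrow : ∀ m : ℕ, (m : ℝ) ≤ r m := by
    intro m
    induction m with
    | zero => simpa using (zero_le_one.trans (hr1 0))
    | succ m ih =>
      have h8 : s m + 1 ≤ r (m + 1) := by
        have h9 : 20 ≤ s m := hs20 m
        have h10 : s m ^ 2 ≤ s m ^ (m + 2) := pow_le_pow_right₀ (by linarith) (by omega)
        have h11 : 1 ≤ R' m := by nlinarith [hR m]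
        have h12 : R' m ≤ R' m ^ (m + 2) := le_self_pow₀ h11 (by omega)
        rw [hrR]
        nlinarith [hR m]
      push_cast
      linarith [hrs m]
  have hrt : Tendsto r atTop atTop :=
    tendsto_atTop_mono hgrow tendsto_natCast_atTop_atTop
  have hτ0 : ∀ m, 0 < τ m := h1
  have hτ8 : ∀ m, τ m ≤ 1 / 8 := fun m => (h2 m).trans (hG m).hσ1
  have hτ1 : ∀ m, τ m ≤ 1 := fun m => (hτ8 m).trans (by norm_num)
  have hτ4 : ∀ m, τ (m + 1) ≤ τ m / 4 := fun m => by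
    have := h2 (m + 1)
    rwa [h3 m] at this
  obtain ⟨f, hfd, hfc⟩ := limit (F := F) hτ0 hτ1 hτ4 hmono hrt h4
  have hF0 : F 0 = X := by rw [hF]; simp only [hu0]
  have hr0 : r 0 = 1 := by rw [hr]; simp only [hu0]
  have hf0 : f 0 = 0 := by
    have := hfc 0 0 (by rw [norm_zero]; exact (zero_le_one.trans (hr1 0)))
    rw [hF0, eval_X, norm_zero, mul_zero, sub_zero] at this
    exact norm_le_zero_iff.1 this
  have hf1 : f 1 ≠ 0 := by
    intro h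
    have := hfc 0 1 (by rw [norm_one]; exact hr1 0)
    rw [hF0, eval_X, h, zero_sub, norm_neg, norm_one, mul_one] at this
    linarith [hτ8 0]
  have hfo : IsOpenMap f := open_entire hfd (a := 1) (b := 0) (by rw [hf0]; exact hf1)
  refine ⟨f, r, s, R', hfd, hfo, hf0, fun m => ⟨hr1 m, hrs m, hs20 m, hR m, hrR m⟩, fun m => ?_⟩
  apply h7 m f hfd.continuous hfo (hfc m)
  intro z hz
  refine (hfc (m + 1) z hz).trans ?_
  exact mul_le_mul_of_nonneg_right (hτ4 m) (norm_nonneg _)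

end Pool.Agent.K3h72.SH
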